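import Pool.Agent.X209.NB.TorL

/-!
# The Knörr–Robinson conjecture with discrete torsion

Let `Z` be a central subgroup of the finite group `G` and `lam` a linear character of `Z`. They
define a class `α` in `H²(G/Z, ℂˣ)`, and for commuting elements `x`, `y` of `G/Z` the discrete
torsion phase `α(x, y) / α(y, x)` is `lam([x, y])`, the commutator being taken in `G`. The number
`chi2Tw p lam` is the equivariant Euler characteristic of the poset of the nontrivial `p`-subgroups
with this discrete torsion. The conjecture of Knörr and Robinson with discrete torsion says that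
`chi2Tw p lam = k(G | lam) - z_p(G | lam)`, where only the characters over `lam` are counted. We
prove that it is equivalent to the conjecture of Knörr and Robinson.
-/

open scoped Classical
open Pool.Agent.Y63.KR (KRC)
open Pool.Agent.Helper884.IC (IsIrrChar)
open Pool.Agent.X209.DI (krDefect)
open Pool.Agent.X209.PJ Pool.Agent.X209.NB

noncomputable section

namespace Pool.Agent.Results.MP_b6945b_al.DiscreteTorsion

section

variable {G : Type} [Group G] {Z : Subgroup G}

/-- The number of the irreducible characters of the subgroup `H` over `lam`. -/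
def kOn (lam : Z →* ℂˣ) (H : Subgroup G) : ℕ :=
  Nat.card {χ : H → ℂ // IsIrrChar χ ∧ Over lam χ}

/-- `k(G | lam) - chi2Tw` is the alternating sum of the numbers of characters over `lam` of the
chain stabilisers. -/
def AltFormula (p : ℕ) (lam : Z →* ℂˣ) : Prop :=
  (kTw lam : ℂ) - chi2Tw p lam =
    ((altAbove p (⊥ : Subgroup G) (fun H => (kOn lam H : ℤ)) : ℤ) : ℂ)

/-- The difference of the two sides of the conjecture with discrete torsion in terms of the
differences of the two sides of the conjecture for the quotients `G / ker (lam ^ m)`. -/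
def Formula (p : ℕ) (lam : Z →* ℂˣ) : Prop :=
  ∀ _ : ∀ m : ℕ, (kerG (lam ^ m)).Normal,
    (Nat.totient (orderOf lam) : ℂ) *
        ((kTw lam : ℂ) - (zTw p lam : ℂ) - chi2Tw p lam) =
      ∑ m ∈ (orderOf lam).divisors, (ArithmeticFunction.moebius m : ℂ) *
        ((krDefect p (G ⧸ kerG (lam ^ m)) : ℚ) : ℂ)

variable [Finite G]

lemma altFormula {p : ℕ} [Fact p.Prime] (hZ : Z ≤ Subgroup.center G) (lam : Z →* ℂˣ) :
    AltFormula p lam := by
  unfold AltFormula
  rw [chi2Tw_eq hZ lam, altAbove_eq]
  congr 2
  funext σ
  unfold kOver kOn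
  congr 1
  refine Nat.card_congr (Equiv.subtypeEquivRight fun χ => ?_)
  rw [and_true]

lemma formulaC {p : ℕ} [Fact p.Prime] (hZ : Z ≤ Subgroup.center G) (hpZ : ¬ p ∣ Nat.card Z)
    (lam : Z →* ℂˣ) : Formula p lam := by
  intro hN
  have h := congrArg (Int.cast : ℤ → ℂ) (tw_formula (p := p) hZ hpZ lam hN)
  push_cast at h
  rw [dTw_eq hZ lam, h]
  refine Finset.sum_congr rfl fun m _ => ?_
  have : Fintype (G ⧸ kerG (lam ^ m)) := Fintype.ofFinite _
  rw [Pool.Agent.X209.DI.krDefect_eq]
  push_cast
  rfl

end

/-- Let `p` be a prime, `Z` a central subgroup of the finite group `G` and `lam` a linear character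
of `Z`. (1) The Euler characteristic with discrete torsion is given by an alternating sum over
chains. (2) If `p` does not divide `|Z|`: the conjecture with discrete torsion holds for all linear
characters of `Z` if and only if the conjecture of Knörr and Robinson holds for all `G/Y`, `Y ≤ Z`.
(3) A formula for a single `lam`. (4) The conjecture of Knörr and Robinson at `p` for all finite
groups is equivalent to the conjecture with discrete torsion. -/
theorem result (p : ℕ) [Fact p.Prime] :
    (∀ (G : Type) [Group G] [Finite G] (Z : Subgroup G), Z ≤ Subgroup.center G →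
      (∀ lam : Z →* ℂˣ, AltFormula p lam) ∧
      (¬ p ∣ Nat.card Z →
        ((∀ lam : Z →* ℂˣ, TwKRC p lam) ↔
          ∀ Y : Subgroup G, Y ≤ Z → ∀ _ : Y.Normal, KRC p (G ⧸ Y)) ∧
        ∀ lam : Z →* ℂˣ, Formula p lam)) ∧
    ((∀ (G : Type) [Group G] [Finite G], KRC p G) ↔
      ∀ (G : Type) [Group G] [Finite G] (Z : Subgroup G), Z ≤ Subgroup.center G →
        ¬ p ∣ Nat.card Z → ∀ lam : Z →* ℂˣ, TwKRC p lam) := by
  refine ⟨?_, tw_global⟩
  intro G _ _ Z hZ
  exact ⟨fun lam => altFormula hZ lam, fun hpZ => ⟨tw_local hZ hpZ, fun lam => formulaC hZ hpZ lam⟩⟩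

end Pool.Agent.Results.MP_b6945b_al.DiscreteTorsion
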