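import Pool.Agent.X209.DI.Mob4

/-!
# The conjecture of Knörr and Robinson for extensions by `p`-groups: an exact formula

Let `G` be a normal subgroup of the finite group `E` such that `E / G` is a `p`-group. We write the
difference `δ_p(E)` of the two sides of the conjecture of Knörr and Robinson for `E` as a sum over
the elementary abelian `p`-subgroups `Q` of `E` with `Q ∩ G = 1`:
`|E| δ_p(E) = ∑_Q (-1)^r p^(r(r-1)/2) |C_G(Q)| δ_p(C_G(Q))`, where `|Q| = p^r`. The same holds for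
the (reduced) equivariant Euler characteristic and for the number of the characters of defect zero.
In particular the conjecture for `E` follows from the conjecture for the centralisers `C_G(Q)`.
-/

open scoped Classical

noncomputable section

namespace Pool.Agent.Results.MP_b6945b_al.MobiusFormula

open Pool.Agent.Y63.KR (KRC chi2)
open Pool.Agent.Y63.AWC (numDefectZero)
open Pool.Agent.X209.DI

/-- `Q` is an elementary abelian `p`-subgroup of `E` (the trivial one included). -/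
def IsElem (p : ℕ) {E : Type} [Group E] (Q : Subgroup E) : Prop :=
  (∀ x ∈ Q, x ^ p = 1) ∧ ∀ x ∈ Q, ∀ y ∈ Q, x * y = y * x

/-- `Q` is an elementary abelian `p`-subgroup of `E` with `Q ∩ G = 1`. -/
def Outer (p : ℕ) {E : Type} [Group E] (G Q : Subgroup E) : Prop := IsElem p Q ∧ Q ⊓ G = ⊥

/-- The coefficient `(-1)^r p^(r(r-1)/2)` of a subgroup `Q` of order `p^r`. -/
def coeff (p : ℕ) {E : Type} [Group E] (Q : Subgroup E) : ℚ :=
  (-1) ^ (Nat.card Q).factorization p * (p : ℚ) ^ ((Nat.card Q).factorization p).choose 2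

/-- The centraliser `C_H(Q)`. -/
def cent {E : Type} [Group E] (H Q : Subgroup E) : Subgroup E :=
  H ⊓ Subgroup.centralizer (Q : Set E)

/-- The negative `k(H) - χ₂` of the reduced equivariant Euler characteristic. -/
def redChi2 (p : ℕ) (H : Type) [Group H] : ℚ := (Nat.card (ConjClasses H) : ℚ) - chi2 p H

/-- The difference of the two sides of the conjecture of Knörr and Robinson:
`δ_p(H) = k(H) - χ₂ - z_p(H)`. It is zero if and only if `KRC p H`. -/
def krDefect (p : ℕ) (H : Type) [Group H] : ℚ := redChi2 p H - (numDefectZero p H : ℚ)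

/-- `O_p(H) = 1`. -/
def TrivialCore (p : ℕ) (H : Type) [Group H] : Prop :=
  ∀ S : Subgroup H, S.Normal → IsPGroup p S → S = ⊥

lemma redChi2_eq {p : ℕ} [Fact p.Prime] {H : Type} [Group H] [Finite H] :
    redChi2 p H = (aK p H : ℚ) := by
  have : Fintype H := Fintype.ofFinite H
  have h1 := Pool.Agent.X209.DI.krDefect_eq (p := p) (A := H)
  unfold Pool.Agent.X209.DI.krDefect kd at h1
  push_cast at h1
  unfold redChi2
  linarith

lemma krDefect_eq' {p : ℕ} [Fact p.Prime] {H : Type} [Group H] [Finite H] :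
    krDefect p H = (kd p H : ℚ) := by
  unfold krDefect kd
  rw [redChi2_eq]
  push_cast
  rfl

lemma isElem_iff {p : ℕ} {E : Type} [Group E] [Fintype E] {Q : Subgroup E} :
    IsElem p Q ↔ ElAb p Q := ⟨fun h => ⟨h.1, h.2⟩, fun h => ⟨h.pow, h.comm⟩⟩

/-- transfer of the sum -/
lemma transfer {p : ℕ} [Fact p.Prime] {E : Type} [Group E] [Fintype E] {G : Subgroup E}
    [hG : G.Normal] (h : IsPGroup p (E ⧸ G)) {ψ : (H : Type) → [Group H] → ℤ} (hψ : Good p ψ)
    {Ψ : (H : Type) → [Group H] → ℚ} (hΨ : ∀ (H : Type) [Group H] [Finite H], Ψ H = (ψ H : ℚ)) :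
    (Nat.card E : ℚ) * Ψ E = ∑ᶠ Q : {Q : Subgroup E // Outer p G Q},
      coeff p Q.1 * ((Nat.card ↥(cent G Q.1) : ℚ) * Ψ ↥(cent G Q.1)) := by
  have h1 := congrArg (Int.cast : ℤ → ℚ) (good_formula hψ h)
  push_cast at h1
  rw [hΨ E, h1]
  have : Fintype {Q : Subgroup E // Outer p G Q} := Fintype.ofFinite _
  rw [finsum_eq_sum_of_fintype]
  refine Finset.sum_bij' (fun Q hQ => ⟨Q, ?_⟩) (fun Q _ => Q.1) ?_ ?_ ?_ ?_ ?_
  · rw [mem_EA] at hQ
    exact ⟨isElem_iff.mpr hQ.2.2, hQ.2.1⟩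
  · intro Q _
    exact Finset.mem_univ _
  · intro Q _
    rw [mem_EA]
    exact ⟨le_top, Q.2.2, isElem_iff.mp Q.2.1⟩
  · intro Q _
    rfl
  · intro Q _
    rfl
  · intro Q _
    simp only []
    rw [hΨ ↥(cent G Q)]
    unfold mob rk coeff fK cent
    push_cast
    rfl

/-- Let `p` be a prime and `G` a normal subgroup of the finite group `E` such that `E / G` is a
`p`-group.

(1), (2), (3) For each of the three functions `f(H) = k(H) - χ₂(H)`, `f(H) = z_p(H)` and
`f(H) = δ_p(H)` we have `|E| f(E) = ∑_Q (-1)^r p^(r(r-1)/2) |C_G(Q)| f(C_G(Q))`, the sum over the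
elementary abelian `p`-subgroups `Q` of `E` with `Q ∩ G = 1`, where `|Q| = p^r`.

(4) The conjecture of Knörr and Robinson holds for `C_H(Q)` for all `H` between `G` and `E` and all
elementary abelian `p`-subgroups `Q` of `E` if and only if it holds for `C_G(Q)` for those with
`Q ∩ G = 1` and `O_p(C_G(Q)) = 1`.

(5) If it holds for all `C_G(Q)` with `Q ≠ 1` elementary abelian, `Q ∩ G = 1` and
`O_p(C_G(Q)) = 1` (for example if all elements of order `p` of `E` lie in `G`), then
`|E| δ_p(E) = |G| δ_p(G)`, and the conjecture holds for `E` if and only if it holds for `G`. -/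
theorem result (p : ℕ) [Fact p.Prime] (E : Type) [Group E] [Finite E] (G : Subgroup E) [G.Normal]
    (h : IsPGroup p (E ⧸ G)) :
    ((Nat.card E : ℚ) * redChi2 p E = ∑ᶠ Q : {Q : Subgroup E // Outer p G Q},
      coeff p Q.1 * ((Nat.card ↥(cent G Q.1) : ℚ) * redChi2 p ↥(cent G Q.1))) ∧
    ((Nat.card E : ℚ) * (numDefectZero p E : ℚ) = ∑ᶠ Q : {Q : Subgroup E // Outer p G Q},
      coeff p Q.1 * ((Nat.card ↥(cent G Q.1) : ℚ) * (numDefectZero p ↥(cent G Q.1) : ℚ))) ∧
    ((Nat.card E : ℚ) * krDefect p E = ∑ᶠ Q : {Q : Subgroup E // Outer p G Q},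
      coeff p Q.1 * ((Nat.card ↥(cent G Q.1) : ℚ) * krDefect p ↥(cent G Q.1))) ∧
    ((∀ H Q : Subgroup E, G ≤ H → IsElem p Q → KRC p ↥(cent H Q)) ↔
      ∀ Q : Subgroup E, Outer p G Q → TrivialCore p ↥(cent G Q) → KRC p ↥(cent G Q)) ∧
    ((∀ Q : Subgroup E, Q ≠ ⊥ → Outer p G Q → TrivialCore p ↥(cent G Q) → KRC p ↥(cent G Q)) →
      (Nat.card E : ℚ) * krDefect p E = (Nat.card G : ℚ) * krDefect p G ∧ (KRC p E ↔ KRC p G)) := by
  let _ := Fintype.ofFinite E
  refine ⟨?_, ?_, ?_, ?_, ?_⟩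
  · exact transfer h good_aK (Ψ := fun H _ => redChi2 p H) fun H _ _ => redChi2_eq
  · exact transfer h good_z (Ψ := fun H _ => (numDefectZero p H : ℚ)) fun H _ _ => by
      push_cast
      rfl
  · exact transfer h good_kd (Ψ := fun H _ => krDefect p H) fun H _ _ => krDefect_eq'
  · constructor
    · intro hK Q hQ _
      exact hK G Q le_rfl hQ.1
    · intro hK H Q hGH hQ
      rw [KRC_iff_kd]
      exact kd_cent h (fun Q' h1 h2 h3 => (KRC_iff_kd _).mp (hK Q' ⟨isElem_iff.mpr h1, h2⟩ h3)) hGH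
        (isElem_iff.mp hQ)
  · intro hK
    have h1 := kd_single h fun Q' h0 h1 h2 h3 =>
      (KRC_iff_kd _).mp (hK Q' h0 ⟨isElem_iff.mpr h1, h2⟩ h3)
    refine ⟨?_, ?_⟩
    · rw [krDefect_eq', krDefect_eq']
      exact_mod_cast h1
    · rw [KRC_iff_kd, KRC_iff_kd]
      have hE : (Nat.card E : ℤ) ≠ 0 := by exact_mod_cast Nat.card_pos.ne'
      have hG : (Nat.card G : ℤ) ≠ 0 := by exact_mod_cast Nat.card_pos.ne'
      rw [← mul_eq_zero_iff_left hE, h1, mul_eq_zero_iff_left hG]

end Pool.Agent.Results.MP_b6945b_al.MobiusFormula
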