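import Pool.Agent.Y63.KR.Levels

/-!
# The Knörr–Robinson conjecture and rationality levels of conjugacy classes

For a finite group `G` and a prime `p`, `alternatingSum p G f` is the sum of `(-1)^|σ| f(G_σ)` over
representatives `σ` of the `G`-classes of chains of nontrivial `p`-subgroups (the empty chain
included), and `KRC p G` is the Knörr–Robinson conjecture `χ₂ = k(G) - z_p(G)`.

Knörr and Robinson proved that the alternating sums of the numbers of all classes and of the
`p`-regular classes are equal. Here we prove this for the classes fixed by any power map, and deduce
that the conjecture is a statement on `p`-rational classes only: all other classes may be dropped in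
all terms of the alternating sum, and the classes of every positive rationality level contribute
zero.
-/

open scoped Classical

noncomputable section

namespace Pool.Agent.Results.MP_b6945b_al.RationalityLevels

open Pool.Agent.Y63.KR
open Pool.Agent.Y63.AWC (numDefectZero)

/-- Let `G` be a finite group and `p` a prime.

(1) For every `s`, the alternating sums over the chains of nontrivial `p`-subgroups of the number of
classes `C` with `C^s = C` and of the number of `p`-regular classes with this property are equal.

(2) If `t` is `1` modulo the `p'`-part of `|G|`, then the alternating sum of the number of classes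
with `C^t = C` is that of the number of all classes.

(3) The same holds for the number of the `p^a`-rational classes, where `a` is arbitrary for `p` odd,
and `a ≥ 2` for `p = 2`.

(4) For `a ≥ 1` (`a ≥ 3` for `p = 2`) the alternating sum of the number of classes of rationality
level `a` is zero.

(5) The Knörr–Robinson conjecture for `G` at `p` is equivalent to the equation of the alternating
sum of the number of `p^a`-rational classes, `a` as in (3), and the number of characters of
`p`-defect zero of `G`, and also to the equation of the alternating sum of the number of classes
with `C^t = C`, `t` as in (2), and this number. -/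
theorem result (p : ℕ) [Fact p.Prime] (G : Type) [Group G] [Finite G] :
    (∀ s : ℕ, alternatingSum p G (fun H => (numFixed s H : ℤ)) =
      alternatingSum p G (fun H => (numFixedRegular p s H : ℤ))) ∧
    (∀ t : ℕ, t ≡ 1 [MOD Nat.card G / p ^ (Nat.card G).factorization p] →
      alternatingSum p G (fun H => (numFixed t H : ℤ)) =
        alternatingSum p G (fun H => (Nat.card (ConjClasses H) : ℤ))) ∧
    (∀ a : ℕ, (p = 2 → 2 ≤ a) → alternatingSum p G (fun H => (numRational p a H : ℤ)) =
      alternatingSum p G (fun H => (Nat.card (ConjClasses H) : ℤ))) ∧
    (∀ a : ℕ, 1 ≤ a → (p = 2 → 3 ≤ a) →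
      alternatingSum p G (fun H => (numLevel p a H : ℤ)) = 0) ∧
    (∀ a : ℕ, (p = 2 → 2 ≤ a) →
      (KRC p G ↔ alternatingSum p G (fun H => (numRational p a H : ℤ)) =
        (numDefectZero p G : ℤ))) ∧
    (∀ t : ℕ, t ≡ 1 [MOD Nat.card G / p ^ (Nat.card G).factorization p] →
      (KRC p G ↔ alternatingSum p G (fun H => (numFixed t H : ℤ)) =
        (numDefectZero p G : ℤ))) := by
  have key : ∀ t : ℕ, t ≡ 1 [MOD Nat.card G / p ^ (Nat.card G).factorization p] →
      alternatingSum p G (fun H => (numFixed t H : ℤ)) =
        alternatingSum p G (fun H => (Nat.card (ConjClasses H) : ℤ)) := by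
    intro t ht
    have e2 : (fun H : Subgroup G => (Nat.card (ConjClasses H) : ℤ)) =
        fun H : Subgroup G => (numFixed 1 H : ℤ) := funext fun H => by rw [numFixed_one]
    have e3 : (fun H : Subgroup G => (numFixedRegular p t H : ℤ)) =
        fun H : Subgroup G => (numFixedRegular p 1 H : ℤ) :=
      funext fun H => by rw [numFixedRegular_eq H ht]
    rw [e2, galois t, galois 1, e3]
  refine ⟨galois, key, sum_rational, sum_level, krc_iff, fun t ht => ?_⟩
  have h1 := krc_iff (p := p) (G := G) 2 (fun _ => le_rfl)
  rw [sum_rational 2 (fun _ => le_rfl)] at h1
  rw [key t ht]
  exact h1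

end Pool.Agent.Results.MP_b6945b_al.RationalityLevels
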