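import Pool.Agent.Y63.KR.Chi

/-!
# The Knörr–Robinson conjecture and surface groups

For a finite group `G` and a prime `p` let `X` be the poset of the nontrivial `p`-subgroups of `G`.
The number `χ₂(X, G) - k(G)` of the conjecture is the reduced equivariant Euler characteristic
`|G|⁻¹ ∑_φ (χ(X^φ(Π)) - 1)`, `φ ∈ Hom(Π, G)`, for `Π = ℤ²`, the fundamental group of the torus.
`surfaceChi p g G` is the same number for the fundamental group `Π_g` of the closed orientable surface
of genus `g`. We compute it modulo powers of `p` for `g ≥ 2` and deduce that the Knörr–Robinson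
conjecture is the continuity of the function `g ↦ surfaceChi p g G` at `g = 1`, for the `p`-adic
topology on both sides, and that it can be read off from one congruence between the Euler
characteristics for the torus and for one surface of higher genus.
-/

open scoped Classical BigOperators

noncomputable section

namespace Pool.Agent.Results.MP_b6945b_al.SurfaceGroups

open Pool.Agent.Y63.KR
open Pool.Agent.Y63.AWC (numDefectZero)
open Pool.Agent.Helper884.IC (IsIrrChar Irr)

/-- The sum of `(|H| / χ(1))^(2n)` over the irreducible complex characters `χ` of `H`; here `cod χ`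
is `|H| / χ(1)`. -/
def codegreeSum (n : ℕ) (H : Type) [Group H] : ℕ :=
  ∑ᶠ χ : {χ : H → ℂ // IsIrrChar χ}, cod χ.1 ^ (2 * n)

lemma surfaceCount_eq_codegreeSum (n : ℕ) (H : Type) [Group H] [Finite H] :
    surfaceCount (n + 1) H = codegreeSum n H := by
  have : Fintype H := Fintype.ofFinite H
  rw [surfaceCount_eq]
  unfold zsum codegreeSum
  have e : {χ : H → ℂ // IsIrrChar χ} ≃ {χ : H → ℂ // χ ∈ Irr H} :=
    Equiv.subtypeEquivRight fun χ => Pool.Agent.Helper884.IC.mem_Irr.symm
  have : Fintype {χ : H → ℂ // IsIrrChar χ} := Fintype.ofEquiv _ e.symm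
  rw [finsum_eq_sum_of_fintype]
  exact Finset.sum_subtype _ (fun χ => Pool.Agent.Helper884.IC.mem_Irr) _

section

variable {p : ℕ} [hp : Fact p.Prime] {G : Type} [Group G] [Finite G]

lemma surfaceChi_one :
    surfaceChi p 1 G = chi2 p G - (Nat.card (ConjClasses G) : ℚ) := by
  have h1 := surfaceChi_eq (p := p) (G := G) 0
  rw [sum_surfaceCount_one, altSum_classes] at h1
  rw [h1]
  ring

lemma defectZero_le : numDefectZero p G ≤ Nat.card (ConjClasses G) := by
  have : Fintype G := Fintype.ofFinite G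
  rw [← surfaceCount_one, surfaceCount_eq (G := G) 0, numDefectZero_eq_card]
  unfold zsum
  simp only [mul_zero, pow_zero, Finset.sum_const, smul_eq_mul, mul_one]
  exact Finset.card_filter_le _ _

lemma chi_mod {g N : ℕ} (hg : 2 ≤ g) (hd : p ^ N * (p - 1) ∣ g - 1) :
    ∃ c : ℤ, surfaceChi p g G + (numDefectZero p G : ℚ) = (p : ℚ) ^ (N + 1) * c := by
  obtain ⟨n, rfl⟩ : ∃ n, g = n + 1 := ⟨g - 1, by omega⟩
  rw [Nat.add_sub_cancel] at hd
  obtain ⟨c, hc⟩ := alternatingSum_mod' (p := p) (G := G) (by omega : n ≠ 0) hd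
  refine ⟨-c, ?_⟩
  rw [surfaceChi_eq]
  have h2 := congrArg (Int.cast : ℤ → ℚ) hc
  push_cast at h2 ⊢
  linarith

lemma krc_iff_congruence {g N : ℕ} (hg : 2 ≤ g) (hd : p ^ N * (p - 1) ∣ g - 1)
    (hN : |chi2 p G| + (Nat.card (ConjClasses G) : ℚ) < (p : ℚ) ^ (N + 1)) :
    KRC p G ↔ ∃ c : ℤ, surfaceChi p g G - surfaceChi p 1 G = (p : ℚ) ^ (N + 1) * c := by
  obtain ⟨c0, hc0⟩ := chi_mod (p := p) (G := G) hg hd
  rw [surfaceChi_one]
  unfold KRC
  constructor
  · intro h
    refine ⟨c0, ?_⟩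
    rw [h]
    linarith
  · rintro ⟨c, hc⟩
    have h1 : (numDefectZero p G : ℚ) + (chi2 p G - (Nat.card (ConjClasses G) : ℚ)) =
        (p : ℚ) ^ (N + 1) * ((c0 - c : ℤ) : ℚ) := by
      push_cast
      linarith
    have hp0 : (0 : ℚ) < (p : ℚ) ^ (N + 1) := by
      have : (0 : ℚ) < p := by exact_mod_cast hp.out.pos
      positivity
    have hle : (numDefectZero p G : ℚ) ≤ (Nat.card (ConjClasses G) : ℚ) := by
      exact_mod_cast defectZero_le
    have h0 : (0 : ℚ) ≤ (numDefectZero p G : ℚ) := by positivity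
    have h2 : |(numDefectZero p G : ℚ) + (chi2 p G - (Nat.card (ConjClasses G) : ℚ))| <
        (p : ℚ) ^ (N + 1) := by
      refine lt_of_le_of_lt ?_ hN
      rw [abs_le]
      have h3 := abs_le.mp (le_refl |chi2 p G|)
      constructor <;> linarith [h3.1, h3.2]
    rw [h1, abs_mul, abs_of_pos hp0] at h2
    have h4 : |((c0 - c : ℤ) : ℚ)| < 1 := by
      by_contra h5
      rw [not_lt] at h5
      nlinarith
    have h5 : |c0 - c| < 1 := by exact_mod_cast h4
    have h6 : c0 - c = 0 := Int.abs_lt_one_iff.mp h5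
    rw [h6] at h1
    simp only [Int.cast_zero, mul_zero] at h1
    linarith

end

/-- Let `G` be a finite group and `p` a prime.

(1) `surfaceChi p 1 G` is the number `χ₂ - k(G)` of the Knörr–Robinson conjecture.

(2) For `n ≥ 0`, `surfaceChi p (n + 1) G` is minus the alternating sum of
`∑_χ (|G_σ| / χ(1))^(2n)`, `χ ∈ Irr(G_σ)`, over the classes of chains of nontrivial `p`-subgroups; in
particular it is an integer.

(3) For `g ≥ 1` it is congruent to `- |Hom(Π_g, G)| / |G|` modulo `p^(2g-2)`.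

(4) For `g ≥ 2` and `g ≡ 1` modulo `p^N (p - 1)` it is congruent to `- z_p(G)` modulo `p^(N+1)`.

(5) The Knörr–Robinson conjecture holds for `G` at `p` if and only if the function
`g ↦ surfaceChi p g G` is continuous at `g = 1`: for every `N` there is `M` such that
`surfaceChi p g G ≡ surfaceChi p 1 G` modulo `p^N` for all `g ≥ 2` with `p^M (p - 1) ∣ g - 1`.

(6) One congruence suffices: if `|χ₂| + k(G) < p^(N+1)`, `g ≥ 2` and `p^N (p - 1) ∣ g - 1`, then the
conjecture holds for `G` at `p` if and only if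
`surfaceChi p g G ≡ surfaceChi p 1 G` modulo `p^(N+1)`. -/
theorem result (p : ℕ) [Fact p.Prime] (G : Type) [Group G] [Finite G] :
    surfaceChi p 1 G = chi2 p G - (Nat.card (ConjClasses G) : ℚ) ∧
    (∀ n : ℕ, surfaceChi p (n + 1) G =
      -((alternatingSum p G (fun H => (codegreeSum n H : ℤ)) : ℤ) : ℚ)) ∧
    (∀ g : ℕ, 1 ≤ g → ∃ c : ℤ,
      surfaceChi p g G + (numHom g G : ℚ) / (Nat.card G : ℚ) = (p : ℚ) ^ (2 * g - 2) * c) ∧
    (∀ g N : ℕ, 2 ≤ g → p ^ N * (p - 1) ∣ g - 1 → ∃ c : ℤ,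
      surfaceChi p g G + (numDefectZero p G : ℚ) = (p : ℚ) ^ (N + 1) * c) ∧
    (KRC p G ↔ ∀ N : ℕ, ∃ M : ℕ, ∀ g : ℕ, 2 ≤ g → p ^ M * (p - 1) ∣ g - 1 →
      ∃ c : ℤ, surfaceChi p g G - surfaceChi p 1 G = (p : ℚ) ^ N * c) ∧
    (∀ g N : ℕ, 2 ≤ g → p ^ N * (p - 1) ∣ g - 1 →
      |chi2 p G| + (Nat.card (ConjClasses G) : ℚ) < (p : ℚ) ^ (N + 1) →
      (KRC p G ↔ ∃ c : ℤ, surfaceChi p g G - surfaceChi p 1 G = (p : ℚ) ^ (N + 1) * c)) := by
  refine ⟨surfaceChi_one, ?_, ?_, fun g N => chi_mod, ?_, fun g N => krc_iff_congruence⟩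
  · intro n
    rw [surfaceChi_eq]
    congr 3
    funext H
    rw [surfaceCount_eq_codegreeSum]
  · intro g hg
    obtain ⟨n, rfl⟩ : ∃ n, g = n + 1 := ⟨g - 1, by omega⟩
    obtain ⟨c, hc⟩ := alternatingSum_mod (p := p) (G := G) n
    refine ⟨-c, ?_⟩
    have h1 := card_mul_surfaceCount (G := G) n
    have h0 : (Nat.card G : ℚ) ≠ 0 := by exact_mod_cast Nat.card_pos.ne'
    have h2 : (numHom (n + 1) G : ℚ) / (Nat.card G : ℚ) = (surfaceCount (n + 1) G : ℚ) := by
      rw [← h1]
      push_cast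
      field_simp
    have h3 := congrArg (Int.cast : ℤ → ℚ) hc
    rw [h2, surfaceChi_eq]
    have e : 2 * (n + 1) - 2 = 2 * n := by omega
    rw [e]
    push_cast at h3 ⊢
    linarith
  · have h1 := krc_iff (p := p) (G := G) 2 (fun _ => le_rfl)
    rw [sum_rational 2 (fun _ => le_rfl)] at h1
    rw [h1]
    exact continuity_iff

end Pool.Agent.Results.MP_b6945b_al.SurfaceGroups
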